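import Pool.Agent.Lib_helper75.CF.Final

/-!
# Liouville's function along the minimal polynomials of the integers of a cubic field
-/

set_option autoImplicit false

namespace Pool.Agent.Results.MP_892e4c_nt.CubicFields

open Polynomial Pool.Agent.CF

/-- Let `R` be an order of a cubic field, that is an integral domain with a `ℤ`-basis `1, ω, θ`.
Then for a positive proportion of the pairs of integers `(x, y)` the minimal polynomial `f` of
`x ω + y θ` is an (irreducible, monic) cubic such that each of the two signs is taken by `λ(f(n))`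
for at least `δ √N` of the positive integers `n ≤ N`, for some `δ > 0` and arbitrarily
large `N`. -/
theorem result (R : Type) [CommRing R] [IsDomain R] (b : Module.Basis (Fin 3) ℤ R)
    (hb : b 0 = 1) :
    ∃ c : ℝ, 0 < c ∧ ∃ H₀ : ℕ, ∀ H : ℕ, H₀ ≤ H →
      c * (H : ℝ) ^ 2 ≤ ({q : ℤ × ℤ | |q.1| ≤ (H : ℤ) ∧ |q.2| ≤ (H : ℤ) ∧
        (minpoly ℤ ((q.1 : R) * b 1 + (q.2 : R) * b 2)).natDegree = 3 ∧
        BothSigns (minpoly ℤ ((q.1 : R) * b 1 + (q.2 : R) * b 2))}.ncard : ℝ) := by
  classical
  obtain ⟨c, hc, H₀, h⟩ := main hb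
  refine ⟨c, hc, H₀, fun H hH => (h H hH).trans (le_of_eq ?_)⟩
  congr 1
  rw [← Set.ncard_coe_finset]
  congr 1
  ext q
  simp only [Finset.coe_filter, Finset.mem_product, Finset.mem_Icc, Set.mem_ofPred_eq, abs_le,
    Good, el, and_assoc]

end Pool.Agent.Results.MP_892e4c_nt.CubicFields
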